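import Mathlib

/-!
# Finite graphs are not dense in the asymptotic spectrum distance

Two points of the asymptotic spectrum of the infinite graphs, the fractional clique covering number
with finitely many cliques, and the supremum of the fractional clique covering numbers of the finite
graphs below the given graph, agree on all finite graphs.  They differ by at least one at the
complement of the tensor product of the infinite shift graph with `K_5`.
-/

set_option autoImplicit false

open Finset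

namespace Pool.Agent.Results.MP_83ab87_co.NotDense

variable {V W U : Type}

/-- `G ≤ H`: there is a cohomomorphism, a map sending every pair of distinct non-adjacent vertices
to a pair of distinct non-adjacent vertices. -/
def Cohom (G : SimpleGraph V) (H : SimpleGraph W) : Prop :=
  ∃ f : V → W, ∀ u v, u ≠ v → ¬ G.Adj u v → f u ≠ f v ∧ ¬ H.Adj (f u) (f v)

/-- Strong product. -/
def strong (G : SimpleGraph V) (H : SimpleGraph W) : SimpleGraph (V × W) where
  Adj p q := p ≠ q ∧ (p.1 = q.1 ∨ G.Adj p.1 q.1) ∧ (p.2 = q.2 ∨ H.Adj p.2 q.2)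
  symm := ⟨fun _ _ h => ⟨h.1.symm, h.2.1.imp Eq.symm (fun e => e.symm),
    h.2.2.imp Eq.symm (fun e => e.symm)⟩⟩
  loopless := ⟨fun _ h => h.1 rfl⟩

/-- The class of graphs with at most continuum many vertices and finite clique covering number. -/
structure GInf where
  V : Type
  G : SimpleGraph V
  card_le : Cardinal.mk V ≤ Cardinal.continuum
  cover : ∃ n : ℕ, Cohom G (⊥ : SimpleGraph (Fin n))

theorem Cohom.trans {G : SimpleGraph V} {H : SimpleGraph W} {K : SimpleGraph U}
    (h : Cohom G H) (h' : Cohom H K) : Cohom G K := by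
  obtain ⟨f, hf⟩ := h
  obtain ⟨g, hg⟩ := h'
  exact ⟨g ∘ f, fun u v huv hadj => hg _ _ (hf u v huv hadj).1 (hf u v huv hadj).2⟩

theorem Cohom.refl (G : SimpleGraph V) : Cohom G G := ⟨id, fun _ _ h h' => ⟨h, h'⟩⟩

theorem cover_of_finite [Finite V] (G : SimpleGraph V) :
    ∃ n : ℕ, Cohom G (⊥ : SimpleGraph (Fin n)) := by
  obtain ⟨n, ⟨e⟩⟩ := Finite.exists_equiv_fin V
  exact ⟨n, e, fun u v h _ => ⟨fun h' => h (e.injective h'), by simp⟩⟩

theorem cohom_sum {V' W' : Type} {G : SimpleGraph V} {H : SimpleGraph W} {G' : SimpleGraph V'}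
    {H' : SimpleGraph W'} (h : Cohom G G') (h' : Cohom H H') :
    Cohom (G.sum H) (G'.sum H') := by
  obtain ⟨f, hf⟩ := h
  obtain ⟨g, hg⟩ := h'
  refine ⟨Sum.map f g, ?_⟩
  rintro (u | u) (v | v) huv hadj
  · have := hf u v (fun h => huv (by rw [h])) hadj
    exact ⟨fun h => this.1 (Sum.inl.inj h), this.2⟩
  · exact ⟨by simp, by simp [SimpleGraph.sum]⟩
  · exact ⟨by simp, by simp [SimpleGraph.sum]⟩
  · have := hg u v (fun h => huv (by rw [h])) hadj
    exact ⟨fun h => this.1 (Sum.inr.inj h), this.2⟩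

theorem cohom_strong {V' W' : Type} {G : SimpleGraph V} {H : SimpleGraph W} {G' : SimpleGraph V'}
    {H' : SimpleGraph W'} (h : Cohom G G') (h' : Cohom H H') :
    Cohom (strong G H) (strong G' H') := by
  obtain ⟨f, hf⟩ := h
  obtain ⟨g, hg⟩ := h'
  refine ⟨Prod.map f g, ?_⟩
  rintro ⟨u, u'⟩ ⟨v, v'⟩ huv hadj
  have h1 : (u ≠ v ∧ ¬ G.Adj u v) ∨ (u' ≠ v' ∧ ¬ H.Adj u' v') := by
    by_contra hcon
    push Not at hcon
    apply hadj
    refine ⟨huv, ?_, ?_⟩
    · by_cases h : u = v
      · exact Or.inl h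
      · exact Or.inr (hcon.1 h)
    · by_cases h : u' = v'
      · exact Or.inl h
      · exact Or.inr (hcon.2 h)
  rcases h1 with h1 | h1
  · have h2 := hf u v h1.1 h1.2
    refine ⟨fun h => h2.1 (congrArg Prod.fst h), fun h => ?_⟩
    rcases h.2.1 with h3 | h3
    · exact h2.1 h3
    · exact h2.2 h3
  · have h2 := hg u' v' h1.1 h1.2
    refine ⟨fun h => h2.1 (congrArg Prod.snd h), fun h => ?_⟩
    rcases h.2.2 with h3 | h3
    · exact h2.1 h3
    · exact h2.2 h3

theorem cohom_bot_sum (n m : ℕ) : Cohom ((⊥ : SimpleGraph (Fin n)).sum (⊥ : SimpleGraph (Fin m)))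
    (⊥ : SimpleGraph (Fin (n + m))) :=
  ⟨finSumFinEquiv, fun _ _ h _ => ⟨fun h' => h (finSumFinEquiv.injective h'), by simp⟩⟩

theorem cohom_bot_strong (n m : ℕ) :
    Cohom (strong (⊥ : SimpleGraph (Fin n)) (⊥ : SimpleGraph (Fin m)))
    (⊥ : SimpleGraph (Fin (n * m))) :=
  ⟨finProdFinEquiv, fun _ _ h _ => ⟨fun h' => h (finProdFinEquiv.injective h'), by simp⟩⟩

/-- Disjoint union in the class. -/
def GInf.sum (G H : GInf) : GInf where
  V := G.V ⊕ H.V
  G := G.G.sum H.G
  card_le := by
    rw [Cardinal.mk_sum, Cardinal.lift_id, Cardinal.lift_id]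
    exact (add_le_add G.card_le H.card_le).trans_eq Cardinal.continuum_add_self
  cover := by
    obtain ⟨n, hn⟩ := G.cover
    obtain ⟨m, hm⟩ := H.cover
    exact ⟨n + m, (cohom_sum hn hm).trans (cohom_bot_sum n m)⟩

/-- Strong product in the class. -/
def GInf.prod (G H : GInf) : GInf where
  V := G.V × H.V
  G := strong G.G H.G
  card_le := by
    rw [Cardinal.mk_prod, Cardinal.lift_id, Cardinal.lift_id]
    exact (mul_le_mul' G.card_le H.card_le).trans_eq Cardinal.continuum_mul_self
  cover := by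
    obtain ⟨n, hn⟩ := G.cover
    obtain ⟨m, hm⟩ := H.cover
    exact ⟨n * m, (cohom_strong hn hm).trans (cohom_bot_strong n m)⟩

/-- A finite graph as a member of the class. -/
def GInf.ofFinite {V : Type} [Finite V] (G : SimpleGraph V) : GInf where
  V := V
  G := G
  card_le := (Cardinal.lt_aleph0_of_finite V).le.trans Cardinal.aleph0_le_continuum
  cover := cover_of_finite G

/-- The edgeless graph on `n` vertices. -/
def E (n : ℕ) : GInf := GInf.ofFinite (⊥ : SimpleGraph (Fin n))

/-- The points of the asymptotic spectrum. -/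
structure IsSpectral (F : GInf → ℝ) : Prop where
  nonneg : ∀ G, 0 ≤ F G
  add : ∀ G H, F (G.sum H) = F G + F H
  mul : ∀ G H, F (G.prod H) = F G * F H
  one : ∀ n : ℕ, F (E n) = n
  mono : ∀ G H : GInf, Cohom G.G H.G → F G ≤ F H

/-- The asymptotic spectrum distance. -/
noncomputable def dist (G H : GInf) : ENNReal :=
  ⨆ (F : GInf → ℝ) (_ : IsSpectral F), ENNReal.ofReal |F G - F H|

/-! ### Fractional clique covers with finitely many cliques -/

open Classical in
/-- `G` has a fractional clique cover with finitely many cliques and total weight `τ`. -/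
def IsCov (G : SimpleGraph V) (τ : ℝ) : Prop :=
  ∃ (ι : Type) (_ : Fintype ι) (C : ι → Set V) (w : ι → ℝ), (∀ j, G.IsClique (C j)) ∧
    (∀ j, 0 ≤ w j) ∧ (∀ v, 1 ≤ ∑ j, if v ∈ C j then w j else 0) ∧ ∑ j, w j = τ

/-- The fractional clique covering number (finitely many cliques). -/
noncomputable def P (G : SimpleGraph V) : ℝ := sInf {τ | IsCov G τ}

theorem IsCov.nonneg {G : SimpleGraph V} {τ : ℝ} (h : IsCov G τ) : 0 ≤ τ := by
  obtain ⟨ι, _, C, w, -, hw, -, rfl⟩ := h
  exact Finset.sum_nonneg fun j _ => hw j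

theorem P_le {G : SimpleGraph V} {τ : ℝ} (h : IsCov G τ) : P G ≤ τ :=
  csInf_le ⟨0, fun _ h => h.nonneg⟩ h

theorem P_nonneg (G : SimpleGraph V) : 0 ≤ P G := Real.sInf_nonneg fun _ h => h.nonneg

theorem le_P {G : SimpleGraph V} (hG : ∃ τ, IsCov G τ) {a : ℝ} (h : ∀ τ, IsCov G τ → a ≤ τ) :
    a ≤ P G := le_csInf hG h

theorem IsCov.of_cohom {G : SimpleGraph V} {H : SimpleGraph W} (h : Cohom G H) {τ : ℝ}
    (hτ : IsCov H τ) : IsCov G τ := by
  classical
  obtain ⟨f, hf⟩ := h
  obtain ⟨ι, hι, C, w, hC, hw, hcov, rfl⟩ := hτ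
  refine ⟨ι, hι, fun j => f ⁻¹' (C j), w, fun j => ?_, hw, fun v => ?_, rfl⟩
  · intro u hu v hv huv
    by_contra hadj
    have := hf u v huv hadj
    exact this.2 (hC j hu hv this.1)
  · simpa using hcov (f v)

theorem isCov_bot (n : ℕ) : IsCov (⊥ : SimpleGraph (Fin n)) n := by
  classical
  refine ⟨Fin n, inferInstance, fun j => {j}, fun _ => 1, ?_, ?_, ?_, by simp⟩
  · intro j
    simp
  · intro j
    exact zero_le_one
  · intro v
    simp

theorem GInf.isCov (G : GInf) : ∃ τ, IsCov G.G τ := by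
  obtain ⟨n, hn⟩ := G.cover
  exact ⟨n, (isCov_bot n).of_cohom hn⟩

theorem P_mono {G : SimpleGraph V} {H : SimpleGraph W} (hH : ∃ τ, IsCov H τ) (h : Cohom G H) :
    P G ≤ P H := le_P hH fun _ hτ => P_le (hτ.of_cohom h)

open Classical in
/-- scaling -/
theorem scaled {G : SimpleGraph V} {ι : Type} [Fintype ι] {C : ι → Set V} {w : ι → ℝ}
    (hC : ∀ j, G.IsClique (C j)) (hw : ∀ j, 0 ≤ w j) {a : ℝ} (ha : 0 ≤ a)
    (hcov : ∀ v, a ≤ ∑ j, if v ∈ C j then w j else 0) : a * P G ≤ ∑ j, w j := by
  rcases ha.eq_or_lt with rfl | ha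
  · rw [zero_mul]
    exact Finset.sum_nonneg fun j _ => hw j
  · have h : IsCov G (∑ j, w j / a) := by
      refine ⟨ι, inferInstance, C, fun j => w j / a, hC, fun j => div_nonneg (hw j) ha.le,
        fun v => ?_, rfl⟩
      have h1 : (∑ j, if v ∈ C j then w j / a else 0) = (∑ j, if v ∈ C j then w j else 0) / a := by
        rw [Finset.sum_div]
        refine Finset.sum_congr rfl fun j _ => ?_
        split_ifs
        · rfl
        · simp
      rw [h1, le_div_iff₀ ha, one_mul]
      exact hcov v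
    have h2 := P_le h
    rw [← Finset.sum_div, le_div_iff₀ ha] at h2
    linarith

open Classical in
/-- packing -/
theorem pack {ι : Type} [Fintype ι] {C : ι → Set V} {w : ι → ℝ}
    (hw : ∀ j, 0 ≤ w j) (hcov : ∀ v, 1 ≤ ∑ j, if v ∈ C j then w j else 0) {n : ℕ} (x : Fin n → V)
    (hx : ∀ j i i', x i ∈ C j → x i' ∈ C j → i = i') : (n : ℝ) ≤ ∑ j, w j := by
  have h1 : (n : ℝ) ≤ ∑ i : Fin n, ∑ j, if x i ∈ C j then w j else 0 := by
    calc (n : ℝ) = ∑ i : Fin n, (1 : ℝ) := by simp
      _ ≤ _ := Finset.sum_le_sum fun i _ => hcov (x i)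
  rw [Finset.sum_comm] at h1
  refine h1.trans (Finset.sum_le_sum fun j _ => ?_)
  by_cases h : ∃ i, x i ∈ C j
  · obtain ⟨i0, hi0⟩ := h
    rw [Finset.sum_eq_single i0]
    · rw [if_pos hi0]
    · intro i _ hi
      rw [if_neg]
      intro hi'
      exact hi (hx j i i0 hi' hi0)
    · simp
  · push Not at h
    rw [Finset.sum_eq_zero]
    · exact hw j
    · intro i _
      rw [if_neg (h i)]

theorem P_bot (n : ℕ) : P (⊥ : SimpleGraph (Fin n)) = n := by
  classical
  refine le_antisymm (P_le (isCov_bot n)) (le_P ⟨_, isCov_bot n⟩ ?_)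
  rintro τ ⟨ι, hι, C, w, hC, hw, hcov, rfl⟩
  refine pack hw hcov id ?_
  intro j i i' hi hi'
  by_contra hne
  exact hC j hi hi' hne

theorem inf_add {a b x : ℝ} {A B : Set ℝ} (hA : A.Nonempty) (hB : B.Nonempty) (ha : a = sInf A)
    (hb : b = sInf B) (h : ∀ s ∈ A, ∀ t ∈ B, x ≤ s + t) : x ≤ a + b := by
  have h1 : x - b ≤ a := by
    rw [ha]
    refine le_csInf hA fun s hs => ?_
    have h2 : x - s ≤ b := by
      rw [hb]
      refine le_csInf hB fun t ht => ?_
      linarith [h s hs t ht]
    linarith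
  linarith

theorem inf_mul_one {a x c : ℝ} {A : Set ℝ} (hA : A.Nonempty) (ha : a = sInf A) (hc : 0 ≤ c)
    (h : ∀ s ∈ A, x ≤ c * s) : x ≤ c * a := by
  rcases hc.eq_or_lt with rfl | hc
  · obtain ⟨s, hs⟩ := hA
    simpa using h s hs
  · have : x / c ≤ a := by
      rw [ha]
      refine le_csInf hA fun s hs => ?_
      rw [div_le_iff₀ hc]
      linarith [h s hs]
    rw [div_le_iff₀ hc] at this
    linarith

theorem P_sum {G : SimpleGraph V} {H : SimpleGraph W} (hG : ∃ τ, IsCov G τ)
    (hH : ∃ τ, IsCov H τ) : P (G.sum H) = P G + P H := by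
  classical
  have hcovsum : ∀ s, IsCov G s → ∀ t, IsCov H t → IsCov (G.sum H) (s + t) := by
    rintro s ⟨ι, hι, C, w, hC, hw, hcov, rfl⟩ t ⟨ι', hι', C', w', hC', hw', hcov', rfl⟩
    refine ⟨ι ⊕ ι', inferInstance, Sum.elim (fun j => Sum.inl '' (C j)) (fun j => Sum.inr '' (C' j)),
      Sum.elim w w', ?_, ?_, ?_, by simp⟩
    · rintro (j | j)
      · rintro _ ⟨u, hu, rfl⟩ _ ⟨v, hv, rfl⟩ huv
        exact hC j hu hv (fun h => huv (by rw [h]))
      · rintro _ ⟨u, hu, rfl⟩ _ ⟨v, hv, rfl⟩ huv
        exact hC' j hu hv (fun h => huv (by rw [h]))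
    · rintro (j | j)
      · exact hw j
      · exact hw' j
    · rintro (v | v)
      · simpa using hcov v
      · simpa using hcov' v
  apply le_antisymm
  · refine inf_add hG hH rfl rfl fun s hs t ht => P_le (hcovsum s hs t ht)
  · obtain ⟨s, hs⟩ := hG
    obtain ⟨t, ht⟩ := hH
    refine le_P ⟨_, hcovsum s hs t ht⟩ ?_
    rintro τ ⟨ι, hι, C, w, hC, hw, hcov, rfl⟩
    have hsep : ∀ j v v', Sum.inl v ∈ C j → Sum.inr v' ∈ C j → False := by
      intro j v v' h h'
      have := hC j h h' (by simp)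
      simp [SimpleGraph.sum] at this
    have h1 : P G ≤ ∑ j, if (∃ v, Sum.inl v ∈ C j) then w j else 0 := by
      apply P_le
      refine ⟨ι, hι, fun j => Sum.inl ⁻¹' (C j), _, ?_, ?_, ?_, rfl⟩
      · intro j u hu v hv huv
        exact hC j hu hv (fun h => huv (Sum.inl.inj h))
      · intro j
        split_ifs
        · exact hw j
        · exact le_rfl
      · intro v
        refine (hcov (Sum.inl v)).trans (Finset.sum_le_sum fun j _ => ?_)
        by_cases h : Sum.inl v ∈ C j
        · have h' : v ∈ Sum.inl ⁻¹' (C j) := h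
          rw [if_pos h, if_pos h', if_pos ⟨v, h⟩]
        · have h' : v ∉ Sum.inl ⁻¹' (C j) := h
          rw [if_neg h, if_neg h']
    have h2 : P H ≤ ∑ j, if (∃ v, Sum.inl v ∈ C j) then 0 else w j := by
      apply P_le
      refine ⟨ι, hι, fun j => Sum.inr ⁻¹' (C j), _, ?_, ?_, ?_, rfl⟩
      · intro j u hu v hv huv
        exact hC j hu hv (fun h => huv (Sum.inr.inj h))
      · intro j
        split_ifs
        · exact le_rfl
        · exact hw j
      · intro v
        refine (hcov (Sum.inr v)).trans (Finset.sum_le_sum fun j _ => ?_)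
        by_cases h : Sum.inr v ∈ C j
        · have h' : v ∈ Sum.inr ⁻¹' (C j) := h
          rw [if_pos h, if_pos h', if_neg]
          rintro ⟨u, hu⟩
          exact hsep j u v hu h
        · have h' : v ∉ Sum.inr ⁻¹' (C j) := h
          rw [if_neg h, if_neg h']
    refine (add_le_add h1 h2).trans_eq ?_
    rw [← Finset.sum_add_distrib]
    refine Finset.sum_congr rfl fun j _ => ?_
    split_ifs <;> simp

theorem P_strong {G : SimpleGraph V} {H : SimpleGraph W} (hG : ∃ τ, IsCov G τ)
    (hH : ∃ τ, IsCov H τ) : P (strong G H) = P G * P H := by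
  classical
  have hcovp : ∀ s, IsCov G s → ∀ t, IsCov H t → IsCov (strong G H) (s * t) := by
    rintro s ⟨ι, hι, C, w, hC, hw, hcov, rfl⟩ t ⟨ι', hι', C', w', hC', hw', hcov', rfl⟩
    refine ⟨ι × ι', inferInstance, fun j => C j.1 ×ˢ C' j.2, fun j => w j.1 * w' j.2, ?_, ?_, ?_, ?_⟩
    · rintro ⟨j, j'⟩ ⟨u, u'⟩ hu ⟨v, v'⟩ hv huv
      refine ⟨huv, ?_, ?_⟩
      · by_cases h : u = v
        · exact Or.inl h
        · exact Or.inr (hC j hu.1 hv.1 h)
      · by_cases h : u' = v'
        · exact Or.inl h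
        · exact Or.inr (hC' j' hu.2 hv.2 h)
    · rintro ⟨j, j'⟩
      exact mul_nonneg (hw j) (hw' j')
    · rintro ⟨v, v'⟩
      have h1 : (∑ j : ι × ι', if (v, v') ∈ C j.1 ×ˢ C' j.2 then w j.1 * w' j.2 else 0) =
          (∑ j, if v ∈ C j then w j else 0) * (∑ j, if v' ∈ C' j then w' j else 0) := by
        rw [Finset.sum_mul_sum, Fintype.sum_prod_type]
        refine Finset.sum_congr rfl fun j _ => Finset.sum_congr rfl fun j' _ => ?_
        by_cases ha : v ∈ C j <;> by_cases hb : v' ∈ C' j' <;> simp [ha, hb]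
      have h2 : (1 : ℝ) ≤ (∑ j, if v ∈ C j then w j else 0) *
          (∑ j, if v' ∈ C' j then w' j else 0) := by
        calc (1 : ℝ) = 1 * 1 := by ring
          _ ≤ _ := mul_le_mul (hcov v) (hcov' v') zero_le_one (zero_le_one.trans (hcov v))
      refine (h2.trans_eq h1.symm).trans_eq ?_
      refine Finset.sum_congr rfl fun j _ => ?_
      congr
    · rw [Finset.sum_mul_sum, Fintype.sum_prod_type]
  apply le_antisymm
  · refine inf_mul_one hH rfl (P_nonneg G) fun t ht => ?_
    rw [mul_comm]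
    refine inf_mul_one hG rfl (IsCov.nonneg ht) fun s hs => ?_
    rw [mul_comm]
    exact P_le (hcovp s hs t ht)
  · obtain ⟨s, hs⟩ := hG
    obtain ⟨t, ht⟩ := hH
    refine le_P ⟨_, hcovp s hs t ht⟩ ?_
    rintro τ ⟨ι, hι, C, w, hC, hw, hcov, rfl⟩
    have hfst : ∀ j, G.IsClique (Prod.fst '' (C j)) := by
      rintro j _ ⟨⟨u, u'⟩, hu, rfl⟩ _ ⟨⟨v, v'⟩, hv, rfl⟩ huv
      have := hC j hu hv (fun h => huv (congrArg Prod.fst h))
      exact this.2.1.resolve_left huv
    have hsnd : ∀ j, H.IsClique (Prod.snd '' (C j)) := by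
      rintro j _ ⟨⟨u, u'⟩, hu, rfl⟩ _ ⟨⟨v, v'⟩, hv, rfl⟩ huv
      have := hC j hu hv (fun h => huv (congrArg Prod.snd h))
      exact this.2.2.resolve_left huv
    refine scaled hsnd hw (P_nonneg G) fun y => ?_
    apply P_le
    refine ⟨ι, hι, fun j => Prod.fst '' (C j), _, hfst, ?_, ?_, rfl⟩
    · intro j
      split_ifs
      · exact hw j
      · exact le_rfl
    · intro v
      refine (hcov (v, y)).trans (Finset.sum_le_sum fun j _ => ?_)
      by_cases h : (v, y) ∈ C j
      · have h1 : v ∈ Prod.fst '' (C j) := ⟨(v, y), h, rfl⟩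
        have h2 : y ∈ Prod.snd '' (C j) := ⟨(v, y), h, rfl⟩
        rw [if_pos h, if_pos h1, if_pos h2]
      · rw [if_neg h]
        split_ifs
        · exact hw j
        · exact le_rfl
        · exact le_rfl

/-- The first spectral point. -/
noncomputable def Fb (G : GInf) : ℝ := P G.G

theorem Fb_spectral : IsSpectral Fb where
  nonneg G := P_nonneg _
  add G H := P_sum G.isCov H.isCov
  mul G H := P_strong G.isCov H.isCov
  one n := P_bot n
  mono G H h := P_mono H.isCov h

/-! ### The second spectral point -/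

/-- the values of `P` at finite graphs below `G` -/
def below (G : GInf) : Set ℝ := {x | ∃ H : GInf, Finite H.V ∧ Cohom H.G G.G ∧ P H.G = x}

/-- The second spectral point. -/
noncomputable def Fa (G : GInf) : ℝ := sSup (below G)

theorem below_bdd (G : GInf) : BddAbove (below G) := by
  refine ⟨P G.G, ?_⟩
  rintro x ⟨H, -, h, rfl⟩
  exact P_mono G.isCov h

theorem below_nonempty (G : GInf) : (below G).Nonempty := by
  refine ⟨_, E 0, ?_, ⟨fun i => i.elim0, fun i => i.elim0⟩, rfl⟩
  change Finite (Fin 0)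
  infer_instance

theorem le_Fa {G H : GInf} (hH : Finite H.V) (h : Cohom H.G G.G) : P H.G ≤ Fa G :=
  le_csSup (below_bdd G) ⟨H, hH, h, rfl⟩

theorem Fa_nonneg (G : GInf) : 0 ≤ Fa G := by
  obtain ⟨x, hx⟩ := below_nonempty G
  have h0 : 0 ≤ x := by
    obtain ⟨H, -, -, rfl⟩ := hx
    exact P_nonneg _
  exact h0.trans (le_csSup (below_bdd G) hx)

theorem Fa_finite {G : GInf} (hG : Finite G.V) : Fa G = P G.G := by
  refine le_antisymm (csSup_le (below_nonempty G) ?_) (le_Fa hG (Cohom.refl _))
  rintro x ⟨H, -, h, rfl⟩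
  exact P_mono G.isCov h

theorem Fa_mono {G H : GInf} (h : Cohom G.G H.G) : Fa G ≤ Fa H := by
  refine csSup_le (below_nonempty G) ?_
  rintro x ⟨K, hK, hK', rfl⟩
  exact le_Fa hK (hK'.trans h)

theorem Fa_spectral : IsSpectral Fa where
  nonneg G := Fa_nonneg G
  add G H := by
    apply le_antisymm
    · refine csSup_le (below_nonempty _) ?_
      rintro x ⟨K, hK, ⟨f, hf⟩, rfl⟩
      let f' : K.V → G.V ⊕ H.V := f
      let S : Set G.V := {v | ∃ k, f' k = Sum.inl v}
      let T : Set H.V := {v | ∃ k, f' k = Sum.inr v}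
      have hS : Finite S := by
        have : (Sum.inl '' S : Set (G.V ⊕ H.V)).Finite := by
          refine (Set.finite_range f').subset ?_
          rintro _ ⟨v, ⟨k, hk⟩, rfl⟩
          exact ⟨k, hk⟩
        exact (Set.Finite.of_finite_image this Sum.inl_injective.injOn).to_subtype
      have hT : Finite T := by
        have : (Sum.inr '' T : Set (G.V ⊕ H.V)).Finite := by
          refine (Set.finite_range f').subset ?_
          rintro _ ⟨v, ⟨k, hk⟩, rfl⟩
          exact ⟨k, hk⟩
        exact (Set.Finite.of_finite_image this Sum.inr_injective.injOn).to_subtype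
      have h1 : Cohom (G.G.induce S) G.G :=
        ⟨Subtype.val, fun u v h h' => ⟨fun e => h (Subtype.ext e), h'⟩⟩
      have h2 : Cohom (H.G.induce T) H.G :=
        ⟨Subtype.val, fun u v h h' => ⟨fun e => h (Subtype.ext e), h'⟩⟩
      have h3 : Cohom K.G ((G.G.induce S).sum (H.G.induce T)) := by
        have hex : ∀ k, ∃ z : S ⊕ T, Sum.map Subtype.val Subtype.val z = f' k := by
          intro k
          cases h : f' k with
          | inl v => exact ⟨Sum.inl ⟨v, k, h⟩, rfl⟩
          | inr v => exact ⟨Sum.inr ⟨v, k, h⟩, rfl⟩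
        choose g hg using hex
        refine ⟨g, fun u v huv hadj => ?_⟩
        have h4 := hf u v huv hadj
        refine ⟨fun e => h4.1 ?_, fun e => h4.2 ?_⟩
        · change f' u = f' v
          rw [← hg, ← hg, e]
        · change (G.G.sum H.G).Adj (f' u) (f' v)
          rw [← hg, ← hg]
          cases hu : g u with
          | inl a =>
            cases hv : g v with
            | inl b => rw [hu, hv] at e; exact e
            | inr b => rw [hu, hv] at e; simp [SimpleGraph.sum] at e
          | inr a =>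
            cases hv : g v with
            | inl b => rw [hu, hv] at e; simp [SimpleGraph.sum] at e
            | inr b => rw [hu, hv] at e; exact e
      have h5 : ∃ τ, IsCov (G.G.induce S) τ := (GInf.ofFinite (G.G.induce S)).isCov
      have h6 : ∃ τ, IsCov (H.G.induce T) τ := (GInf.ofFinite (H.G.induce T)).isCov
      have h7 := ((GInf.ofFinite (G.G.induce S)).sum (GInf.ofFinite (H.G.induce T))).isCov
      have h8 : P K.G ≤ P ((G.G.induce S).sum (H.G.induce T)) := P_mono h7 h3
      rw [P_sum h5 h6] at h8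
      refine h8.trans (add_le_add ?_ ?_)
      · exact le_Fa (H := GInf.ofFinite (G.G.induce S)) hS h1
      · exact le_Fa (H := GInf.ofFinite (H.G.induce T)) hT h2
    · have h1 : ∀ x ∈ below G, ∀ y ∈ below H, x + y ≤ Fa (G.sum H) := by
        rintro x ⟨K, hK, hK', rfl⟩ y ⟨L, hL, hL', rfl⟩
        rw [← P_sum K.isCov L.isCov]
        have : Finite (K.sum L).V := by
          change Finite (K.V ⊕ L.V)
          infer_instance
        exact le_Fa (H := K.sum L) this (cohom_sum hK' hL')
      have h2 : ∀ y ∈ below H, Fa G + y ≤ Fa (G.sum H) := by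
        intro y hy
        have : Fa G ≤ Fa (G.sum H) - y :=
          csSup_le (below_nonempty G) fun x hx => by linarith [h1 x hx y hy]
        linarith
      have : Fa H ≤ Fa (G.sum H) - Fa G :=
        csSup_le (below_nonempty H) fun y hy => by linarith [h2 y hy]
      linarith
  mul G H := by
    apply le_antisymm
    · refine csSup_le (below_nonempty _) ?_
      rintro x ⟨K, hK, ⟨f, hf⟩, rfl⟩
      let f' : K.V → G.V × H.V := f
      let S : Set G.V := Set.range fun k => (f' k).1
      let T : Set H.V := Set.range fun k => (f' k).2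
      have hS : Finite S := (Set.finite_range _).to_subtype
      have hT : Finite T := (Set.finite_range _).to_subtype
      have h1 : Cohom (G.G.induce S) G.G :=
        ⟨Subtype.val, fun u v h h' => ⟨fun e => h (Subtype.ext e), h'⟩⟩
      have h2 : Cohom (H.G.induce T) H.G :=
        ⟨Subtype.val, fun u v h h' => ⟨fun e => h (Subtype.ext e), h'⟩⟩
      have h3 : Cohom K.G (strong (G.G.induce S) (H.G.induce T)) := by
        refine ⟨fun k => (⟨(f' k).1, k, rfl⟩, ⟨(f' k).2, k, rfl⟩), fun u v huv hadj => ?_⟩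
        have h4 := hf u v huv hadj
        refine ⟨fun e => h4.1 ?_, fun e => h4.2 ?_⟩
        · have e1 := congrArg (fun z => z.1.val) e
          have e2 := congrArg (fun z => z.2.val) e
          exact Prod.ext e1 e2
        · refine ⟨h4.1, ?_, ?_⟩
          · rcases e.2.1 with e1 | e1
            · exact Or.inl (congrArg Subtype.val e1)
            · exact Or.inr e1
          · rcases e.2.2 with e1 | e1
            · exact Or.inl (congrArg Subtype.val e1)
            · exact Or.inr e1
      have h5 : ∃ τ, IsCov (G.G.induce S) τ := (GInf.ofFinite (G.G.induce S)).isCov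
      have h6 : ∃ τ, IsCov (H.G.induce T) τ := (GInf.ofFinite (H.G.induce T)).isCov
      have h7 := ((GInf.ofFinite (G.G.induce S)).prod (GInf.ofFinite (H.G.induce T))).isCov
      have h8 : P K.G ≤ P (strong (G.G.induce S) (H.G.induce T)) := P_mono h7 h3
      rw [P_strong h5 h6] at h8
      refine h8.trans (mul_le_mul ?_ ?_ (P_nonneg _) (Fa_nonneg _))
      · exact le_Fa (H := GInf.ofFinite (G.G.induce S)) hS h1
      · exact le_Fa (H := GInf.ofFinite (H.G.induce T)) hT h2
    · have h1 : ∀ x ∈ below G, ∀ y ∈ below H, x * y ≤ Fa (G.prod H) := by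
        rintro x ⟨K, hK, hK', rfl⟩ y ⟨L, hL, hL', rfl⟩
        rw [← P_strong K.isCov L.isCov]
        have : Finite (K.prod L).V := by
          change Finite (K.V × L.V)
          infer_instance
        exact le_Fa (H := K.prod L) this (cohom_strong hK' hL')
      have h0 : 0 ≤ Fa (G.prod H) := Fa_nonneg _
      have h2 : ∀ y ∈ below H, Fa G * y ≤ Fa (G.prod H) := by
        intro y hy
        have hy0 : 0 ≤ y := by
          obtain ⟨L, -, -, rfl⟩ := hy
          exact P_nonneg _
        rcases hy0.eq_or_lt with rfl | hy0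
        · simpa using h0
        · have : Fa G ≤ Fa (G.prod H) / y :=
            csSup_le (below_nonempty G) fun x hx => by
              rw [le_div_iff₀ hy0]
              exact h1 x hx y hy
          rwa [le_div_iff₀ hy0] at this
      rcases (Fa_nonneg G).eq_or_lt with h3 | h3
      · rw [← h3, zero_mul]
        exact h0
      · have : Fa H ≤ Fa (G.prod H) / Fa G :=
          csSup_le (below_nonempty H) fun y hy => by
            rw [le_div_iff₀ h3, mul_comm]
            exact h2 y hy
        rw [le_div_iff₀ h3, mul_comm] at this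
        exact this
  one n := by
    rw [Fa_finite]
    · exact P_bot n
    · change Finite (Fin n)
      infer_instance
  mono G H h := Fa_mono h

/-! ### The graph -/

/-- pairs `i < j` of natural numbers -/
abbrev Pr : Type := {p : ℕ × ℕ // p.1 < p.2}

/-- tensor product of the shift graph with `K_5` -/
def K : SimpleGraph (Pr × Fin 5) where
  Adj x y := x.2 ≠ y.2 ∧ (x.1.1.2 = y.1.1.1 ∨ y.1.1.2 = x.1.1.1)
  symm := ⟨fun _ _ h => ⟨h.1.symm, h.2.symm⟩⟩
  loopless := ⟨fun _ h => h.1 rfl⟩

/-- the complement of `K` -/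
def G0 : GInf where
  V := Pr × Fin 5
  G := Kᶜ
  card_le := (Cardinal.mk_le_aleph0).trans Cardinal.aleph0_le_continuum
  cover := by
    refine ⟨5, fun x => x.2, fun x y hxy hadj => ⟨fun h => ?_, by simp⟩⟩
    apply hadj
    rw [SimpleGraph.compl_adj]
    exact ⟨hxy, fun h' => h'.1 h⟩

/-- the shift graph is not finitely colourable -/
theorem shift {κ : Type} [Finite κ] (c : ℕ → ℕ → κ) :
    ∃ a b d, a < b ∧ b < d ∧ c a b = c b d := by
  obtain ⟨a, b, hab, h⟩ := Finite.exists_ne_map_eq_of_infinite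
    (fun a : ℕ => {k : κ | ∃ b, a < b ∧ c a b = k})
  have key : ∀ a b, a < b → {k : κ | ∃ d, a < d ∧ c a d = k} = {k : κ | ∃ d, b < d ∧ c b d = k} →
      ∃ a b d, a < b ∧ b < d ∧ c a b = c b d := by
    intro a b hab h
    have h1 : c a b ∈ {k : κ | ∃ d, a < d ∧ c a d = k} := ⟨b, hab, rfl⟩
    rw [h] at h1
    obtain ⟨d, hd, hd'⟩ := h1
    exact ⟨a, b, d, hab, hd, hd'.symm⟩
  rcases lt_or_gt_of_ne hab with h1 | h1
  · exact key a b h1 h
  · exact key b a h1 h.symm

theorem Fb_G0 : 5 ≤ Fb G0 := by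
  classical
  refine le_P G0.isCov ?_
  rintro τ ⟨ι, hι, C, w, hC, hw, hcov, rfl⟩
  obtain ⟨a, b, d, hab, hbd, h⟩ := shift (κ := ι → Set (Fin 5))
    (fun a b j => {i | ∃ h : a < b, ((⟨(a, b), h⟩ : Pr), i) ∈ C j})
  have := pack (n := 5) hw hcov (fun i => ((⟨(a, b), hab⟩ : Pr), i)) ?_
  · exact_mod_cast this
  · intro j i i' hi hi'
    by_contra hne
    have h1 : i' ∈ {i | ∃ h : a < b, ((⟨(a, b), h⟩ : Pr), i) ∈ C j} := ⟨hab, hi'⟩
    have h2 := congrFun h j
    rw [h2] at h1
    obtain ⟨h3, h4⟩ := h1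
    have h5 : (Kᶜ).Adj ((⟨(a, b), hab⟩ : Pr), i) ((⟨(b, d), h3⟩ : Pr), i') :=
      hC j hi h4 (fun e => hne (congrArg Prod.snd e))
    rw [SimpleGraph.compl_adj] at h5
    exact h5.2 ⟨hne, Or.inl rfl⟩

theorem count {n : ℕ} (a b : Fin n) (hab : a ≠ b) :
    4 * (univ.filter fun x : Fin n → Bool => x a = true ∧ x b = false).card = 2 ^ n := by
  classical
  let T : Bool → Bool → Finset (Fin n → Bool) := fun s t => univ.filter fun x => x a = s ∧ x b = t
  have hA : ∀ s t, (T s t).card = (T (!s) t).card := by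
    intro s t
    refine Finset.card_bij' (fun x _ => Function.update x a (!x a))
      (fun x _ => Function.update x a (!x a)) ?_ ?_ ?_ ?_
    · intro x hx
      simp only [T, mem_filter, mem_univ, true_and] at hx ⊢
      simp [hx.1, hx.2, Function.update_of_ne hab.symm]
    · intro x hx
      simp only [T, mem_filter, mem_univ, true_and] at hx ⊢
      simp [hx.1, hx.2, Function.update_of_ne hab.symm]
    · intro x hx; simp
    · intro x hx; simp
  have hB : ∀ s t, (T s t).card = (T s (!t)).card := by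
    intro s t
    refine Finset.card_bij' (fun x _ => Function.update x b (!x b))
      (fun x _ => Function.update x b (!x b)) ?_ ?_ ?_ ?_
    · intro x hx
      simp only [T, mem_filter, mem_univ, true_and] at hx ⊢
      simp [hx.1, hx.2, Function.update_of_ne hab]
    · intro x hx
      simp only [T, mem_filter, mem_univ, true_and] at hx ⊢
      simp [hx.1, hx.2, Function.update_of_ne hab]
    · intro x hx; simp
    · intro x hx; simp
  have h1 : (T true false).card = (T false false).card := hA true false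
  have h2 : (T true false).card = (T true true).card := hB true false
  have h3 : (T false false).card = (T false true).card := hB false false
  have h4 : (univ : Finset (Fin n → Bool)).card = ∑ z : Bool × Bool, (T z.1 z.2).card := by
    rw [Finset.card_eq_sum_card_fiberwise (f := fun x => (x a, x b)) (t := univ)
      (fun x _ => by simp)]
    refine Finset.sum_congr rfl fun z _ => ?_
    congr 1
    ext x
    simp [T, Prod.ext_iff]
  rw [Finset.card_univ, Fintype.card_fun, Fintype.card_bool, Fintype.card_fin,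
    Fintype.sum_prod_type] at h4
  simp only [Fintype.sum_bool] at h4
  change 4 * (T true false).card = _
  omega

theorem Fa_G0 : Fa G0 ≤ 4 := by
  classical
  refine csSup_le (below_nonempty _) ?_
  rintro x ⟨H, hH, ⟨f, hf⟩, rfl⟩
  let f' : H.V → Pr × Fin 5 := f
  obtain ⟨n, hn⟩ : ∃ n, ∀ h, (f' h).1.1.2 < n := by
    have := Fintype.ofFinite H.V
    refine ⟨(univ.sup fun h => (f' h).1.1.2) + 1, fun h => ?_⟩
    exact Nat.lt_succ_of_le (Finset.le_sup (f := fun h => (f' h).1.1.2) (mem_univ h))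
  have hlt : ∀ h, (f' h).1.1.1 < n := fun h => (f' h).1.2.trans (hn h)
  apply P_le
  refine ⟨Fin n → Bool, inferInstance,
    fun x => {h | x ⟨(f' h).1.1.1, hlt h⟩ = true ∧ x ⟨(f' h).1.1.2, hn h⟩ = false},
    fun _ => 4 / 2 ^ n, ?_, fun _ => by positivity, ?_, ?_⟩
  · intro x u hu v hv huv
    by_contra hadj
    have h1 := hf u v huv hadj
    have h2 : ¬ (Kᶜ).Adj (f' u) (f' v) := h1.2
    rw [SimpleGraph.compl_adj, not_and, not_not] at h2
    have h3 := h2 h1.1
    rcases h3.2 with h4 | h4
    · have h5 := hu.2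
      have h6 := hv.1
      simp only [h4] at h5
      rw [h5] at h6
      exact absurd h6 (by simp)
    · have h5 := hv.2
      have h6 := hu.1
      simp only [h4] at h5
      rw [h5] at h6
      exact absurd h6 (by simp)
  · intro h
    have hne : (⟨(f' h).1.1.1, hlt h⟩ : Fin n) ≠ ⟨(f' h).1.1.2, hn h⟩ := by
      intro e
      exact (f' h).1.2.ne (congrArg Fin.val e)
    have h1 := count _ _ hne
    have h2 : (∑ x : Fin n → Bool, if h ∈ {h | x ⟨(f' h).1.1.1, hlt h⟩ = true ∧
        x ⟨(f' h).1.1.2, hn h⟩ = false} then (4 : ℝ) / 2 ^ n else 0) =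
        ((univ.filter fun x : Fin n → Bool => x ⟨(f' h).1.1.1, hlt h⟩ = true ∧
          x ⟨(f' h).1.1.2, hn h⟩ = false).card : ℝ) * (4 / 2 ^ n) := by
      rw [← Finset.sum_filter, Finset.sum_const, nsmul_eq_mul]
      rfl
    have h3 : (4 : ℝ) * ((univ.filter fun x : Fin n → Bool => x ⟨(f' h).1.1.1, hlt h⟩ = true ∧
          x ⟨(f' h).1.1.2, hn h⟩ = false).card : ℝ) = 2 ^ n := by exact_mod_cast h1
    have h4 : (0 : ℝ) < 2 ^ n := by positivity
    have h5 : ((univ.filter fun x : Fin n → Bool => x ⟨(f' h).1.1.1, hlt h⟩ = true ∧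
          x ⟨(f' h).1.1.2, hn h⟩ = false).card : ℝ) * (4 / 2 ^ n) = 1 := by
      rw [mul_div_assoc', div_eq_one_iff_eq h4.ne', ← h3]
      ring
    refine (h5.ge.trans_eq h2.symm).trans_eq ?_
    refine Finset.sum_congr rfl fun j _ => ?_
    congr
  · rw [Finset.sum_const, Finset.card_univ, Fintype.card_fun, Fintype.card_bool, Fintype.card_fin,
      nsmul_eq_mul]
    push_cast
    field_simp

theorem result : ∃ (G : GInf) (ε : ℝ), 0 < ε ∧
    ∀ H : GInf, Finite H.V → ENNReal.ofReal ε ≤ dist G H := by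
  refine ⟨G0, 1 / 2, by norm_num, fun H hH => ?_⟩
  by_contra hcon
  rw [not_le] at hcon
  have key : ∀ F, IsSpectral F → |F G0 - F H| < 1 / 2 := by
    intro F hF
    have h1 : ENNReal.ofReal |F G0 - F H| ≤ dist G0 H :=
      le_iSup₂ (f := fun (F : GInf → ℝ) (_ : IsSpectral F) => ENNReal.ofReal |F G0 - F H|) F hF
    have h2 := h1.trans_lt hcon
    exact (ENNReal.ofReal_lt_ofReal_iff (by norm_num)).1 h2
  have h1 := key Fb Fb_spectral
  have h2 := key Fa Fa_spectral
  rw [Fa_finite hH] at h2
  have h3 := Fb_G0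
  have h4 := Fa_G0
  rw [abs_lt] at h1 h2
  have h5 : Fb H = P H.G := rfl
  linarith

end Pool.Agent.Results.MP_83ab87_co.NotDense
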